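import Pool.Agent.P8H39.TI.Stm

set_option autoImplicit false

/-!
# Project TI (helper39), packages LTWO and ONE
-/

namespace Pool.Agent.P8H78.TI

open Finset
open Pool.Agent.P8H39.TI

/-- Abel summation with nonnegative initial sums and nonincreasing nonnegative weights -/
theorem abel (l c : ℕ → ℝ) (r : ℕ) (h0 : ∀ j, j ≤ r → 0 ≤ l j)
    (h1 : ∀ j, j < r → l (j + 1) ≤ l j)
    (h2 : ∀ s, s ≤ r → 0 ≤ ∑ j ∈ range (s + 1), c j) :
    0 ≤ ∑ j ∈ range (r + 1), l j * c j := by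
  have key : ∀ m, m ≤ r → l m * ∑ j ∈ range (m + 1), c j ≤ ∑ j ∈ range (m + 1), l j * c j := by
    intro m
    induction m with
    | zero => intro _; simp
    | succ m ih =>
      intro hm
      have h3 := ih (by omega)
      rw [sum_range_succ (fun j => l j * c j), sum_range_succ c, mul_add]
      have h4 : l (m + 1) * ∑ j ∈ range (m + 1), c j ≤ l m * ∑ j ∈ range (m + 1), c j :=
        mul_le_mul_of_nonneg_right (h1 m (by omega)) (h2 m (by omega))
      linarith
  exact le_trans (mul_nonneg (h0 r le_rfl) (h2 r le_rfl)) (key r le_rfl)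

theorem t_LTWO (hPS : S_PS) : S_LTWO := by
  intro n k t r F T ht htk hn hF hT hr
  obtain ⟨x, z, -, -, -, -, hx, hz, hs⟩ := hPS n k t F T ht htk hn hF hT
  rw [hx r hr, hz r hr]
  have h := abel (fun j => ((k - j).choose (r - j) : ℝ) * ((n - r - j).choose (k - r) : ℝ))
    (fun j => (F.card : ℝ) * z j - x j * ((star k T).card : ℝ)) r
    (fun j _ => by positivity)
    (fun j hj => by
      have e1 : (k - (j + 1)).choose (r - (j + 1)) ≤ (k - j).choose (r - j) := by
        obtain ⟨a, ha⟩ : ∃ a, k - j = a + 1 := ⟨k - j - 1, by omega⟩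
        obtain ⟨b, hb⟩ : ∃ b, r - j = b + 1 := ⟨r - j - 1, by omega⟩
        rw [ha, hb, show k - (j + 1) = a by omega, show r - (j + 1) = b by omega,
          Nat.choose_succ_succ]
        omega
      have e2 : (n - r - (j + 1)).choose (k - r) ≤ (n - r - j).choose (k - r) :=
        Nat.choose_le_choose _ (by omega)
      have e3 : (((k - (j + 1)).choose (r - (j + 1)) : ℕ) : ℝ) ≤ ((k - j).choose (r - j) : ℕ) := by
        exact_mod_cast e1
      have e4 : (((n - r - (j + 1)).choose (k - r) : ℕ) : ℝ) ≤ ((n - r - j).choose (k - r) : ℕ) := by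
        exact_mod_cast e2
      exact mul_le_mul e3 e4 (by positivity) (by positivity))
    (fun s hs' => by
      have h5 := hs s (by omega)
      rw [sum_sub_distrib, ← mul_sum, ← sum_mul]
      linarith)
  have h6 : ∑ j ∈ range (r + 1), ((k - j).choose (r - j) : ℝ) * ((n - r - j).choose (k - r) : ℝ) *
      ((F.card : ℝ) * z j - x j * ((star k T).card : ℝ)) =
      (F.card : ℝ) * ∑ j ∈ range (r + 1),
        ((k - j).choose (r - j) : ℝ) * ((n - r - j).choose (k - r) : ℝ) * z j -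
      (∑ j ∈ range (r + 1),
        ((k - j).choose (r - j) : ℝ) * ((n - r - j).choose (k - r) : ℝ) * x j) *
        ((star k T).card : ℝ) := by
    rw [mul_sum, sum_mul, ← sum_sub_distrib]
    refine sum_congr rfl fun j _ => ?_
    ring

  rw [h6] at h
  linarith

theorem t_ONE (hC : S_CVX) : S_ONE := by
  intro n t d p D s φ hp htn hs hsD hφ0 hφ1 hd0 hdD hsum hsq
  set a := φ * s with ha
  have ha0 : 0 ≤ a := mul_nonneg hφ0 hs
  have has : a ≤ s := by rw [ha]; nlinarith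
  have haD : a < D := lt_of_le_of_lt has hsD
  have hD : 0 < D := lt_of_le_of_lt hs hsD
  have hDa : 0 < D - a := by linarith
  set c := (D ^ p - a ^ p - p * a ^ (p - 1) * (D - a)) / (D - a) ^ 2 with hc
  have hc0 : 0 ≤ c := (hC p a D a hp ha0 haD ha0 haD.le).1
  have hc1 : c * (D - a) ^ 2 = D ^ p - a ^ p - p * a ^ (p - 1) * (D - a) := by
    rw [hc, div_mul_cancel₀]
    positivity
  have hpt : ∀ i, d i ^ p ≤ a ^ p + p * a ^ (p - 1) * (d i - a) + c * (d i - a) ^ 2 :=
    fun i => (hC p a D (d i) hp ha0 haD (hd0 i) (hdD i)).2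
  have h1 : ∑ i, d i ^ p ≤ ∑ i, (a ^ p + p * a ^ (p - 1) * (d i - a) + c * (d i - a) ^ 2) :=
    sum_le_sum fun i _ => hpt i
  have h2 : ∑ i, (a ^ p + p * a ^ (p - 1) * (d i - a) + c * (d i - a) ^ 2) =
      n * a ^ p + p * a ^ (p - 1) * (∑ i, d i - n * a) +
        c * (∑ i, d i ^ 2 - 2 * a * ∑ i, d i + n * a ^ 2) := by
    have e : ∀ i, a ^ p + p * a ^ (p - 1) * (d i - a) + c * (d i - a) ^ 2 =
        (a ^ p - p * a ^ (p - 1) * a + c * a ^ 2) + (p * a ^ (p - 1) - 2 * a * c) * d i +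
          c * d i ^ 2 := fun i => by ring
    simp only [e, sum_add_distrib, ← mul_sum, sum_const, card_univ, Fintype.card_fin,
      nsmul_eq_mul]
    ring
  have h3 : ∑ i, d i ^ 2 - 2 * a * ∑ i, d i + n * a ^ 2 ≤ t * (D - a) ^ 2 := by
    have e : (t : ℝ) * D ^ 2 - 2 * t * D * s * φ * (1 - φ) + ((n : ℝ) - t) * φ ^ 2 * s ^ 2 -
        2 * a * (φ * (t * D + ((n : ℝ) - t) * s)) + n * a ^ 2 = t * (D - a) ^ 2 := by
      rw [ha]; ring
    rw [hsum]
    linarith
  have h4 : c * (∑ i, d i ^ 2 - 2 * a * ∑ i, d i + n * a ^ 2) ≤ c * (t * (D - a) ^ 2) :=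
    mul_le_mul_of_nonneg_left h3 hc0
  have h5 : ∑ i, d i - n * a = φ * t * (D - s) := by
    rw [hsum, ha]; ring
  have ht0 : (0 : ℝ) ≤ t := Nat.cast_nonneg t
  have hnt : (0 : ℝ) ≤ (n : ℝ) - t := by
    have : (t : ℝ) ≤ n := by exact_mod_cast htn
    linarith
  have h6 : c * (t * (D - a) ^ 2) = t * (D ^ p - a ^ p - p * a ^ (p - 1) * (D - a)) := by
    rw [← hc1]; ring
  have h7 : a ^ p ≤ s ^ p := Real.rpow_le_rpow ha0 has (by linarith)
  have h8 : 0 ≤ p * a ^ (p - 1) * (t * (1 - φ) * D) := by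
    have : 0 ≤ a ^ (p - 1) := Real.rpow_nonneg ha0 _
    have : 0 ≤ 1 - φ := by linarith
    positivity
  have h9 : (n : ℝ) * a ^ p + p * a ^ (p - 1) * (φ * t * (D - s)) +
      t * (D ^ p - a ^ p - p * a ^ (p - 1) * (D - a)) =
      t * D ^ p + ((n : ℝ) - t) * a ^ p - p * a ^ (p - 1) * (t * (1 - φ) * D) := by
    rw [ha]; ring
  have h10 : ((n : ℝ) - t) * a ^ p ≤ ((n : ℝ) - t) * s ^ p := mul_le_mul_of_nonneg_left h7 hnt
  rw [h2, h5] at h1
  rw [h6] at h4
  linarith

end Pool.Agent.P8H78.TI
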