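import Pool.Agent.P8H39.TI.Stm

set_option autoImplicit false

/-!
# Project TI (helper39), package RONE
-/

namespace Pool.Agent.P8H78.TI

open Finset
open Pool.Agent.P8H39.TI

/-- the number of `k`-sets containing a given set -/
theorem card_sup (n k : ℕ) (U : Finset (Fin n)) (hU : U.card ≤ k) :
    ((slice n k).filter (fun A => U ⊆ A)).card = (n - U.card).choose (k - U.card) := by
  classical
  have h1 : ((slice n k).filter (fun A => U ⊆ A)).card =
      (powersetCard (k - U.card) (univ \ U)).card := by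
    refine card_nbij' (fun A => A \ U) (fun B => B ∪ U) ?_ ?_ ?_ ?_
    · intro A hA
      rw [mem_coe, mem_filter, mem_powersetCard] at hA
      rw [mem_coe, mem_powersetCard]
      refine ⟨sdiff_subset_sdiff (subset_univ _) (le_refl _), ?_⟩
      rw [card_sdiff_of_subset hA.2, hA.1.2]
    · intro B hB
      rw [mem_coe, mem_powersetCard] at hB
      rw [mem_coe, mem_filter, mem_powersetCard]
      refine ⟨⟨subset_univ _, ?_⟩, subset_union_right⟩
      rw [card_union_of_disjoint, hB.2]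
      · omega
      · exact disjoint_of_subset_left hB.1 sdiff_disjoint
    · intro A hA
      rw [mem_coe, mem_filter, mem_powersetCard] at hA
      exact sdiff_union_of_subset hA.2
    · intro B hB
      rw [mem_coe, mem_powersetCard] at hB
      have hd : Disjoint B U := disjoint_of_subset_left hB.1 sdiff_disjoint
      simp only
      rw [union_sdiff_right, sdiff_eq_self_of_disjoint hd]
  rw [h1, card_powersetCard, card_sdiff_of_subset (subset_univ _), card_univ, Fintype.card_fin]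

theorem sum_one {n : ℕ} (g : Finset (Fin n) → ℝ) : ∑ R ∈ slice n 1, g R = ∑ i, g {i} := by
  show ∑ R ∈ powersetCard 1 univ, g R = _
  rw [powersetCard_one, sum_map]
  rfl

/-- the sum of the degrees of the points -/
theorem sum_deg {n k : ℕ} (F : Finset (Finset (Fin n))) (hF : ∀ A ∈ F, A.card = k) :
    ∑ i, (deg F {i} : ℝ) = k * F.card := by
  classical
  have h1 : ∑ i, deg F {i} = k * F.card := by
    unfold deg
    simp only [card_filter, singleton_subset_iff]
    rw [sum_comm]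
    have : ∀ A ∈ F, ∑ i : Fin n, (if i ∈ A then 1 else 0) = k := by
      intro A hA
      rw [sum_boole, filter_mem_eq_inter, univ_inter, hF A hA, Nat.cast_id]
    rw [sum_congr rfl this, sum_const, smul_eq_mul, mul_comm]
  exact_mod_cast h1

theorem star_card {n k t : ℕ} (T : Finset (Fin n)) (hT : T.card = t) (h : t ≤ k) :
    (star k T).card = (n - t).choose (k - t) := by
  unfold P8H39.TI.star
  rw [card_sup n k T (by omega), hT]

theorem star_deg_in {n k : ℕ} (T : Finset (Fin n)) {i : Fin n} (hi : i ∈ T) :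
    deg (star k T) {i} = (star k T).card := by
  unfold deg
  congr 1
  rw [filter_eq_self]
  intro A hA
  unfold P8H39.TI.star at hA
  rw [mem_filter] at hA
  exact singleton_subset_iff.2 (hA.2 hi)

theorem star_deg_out {n k t : ℕ} (T : Finset (Fin n)) (hT : T.card = t) (h : t < k) {i : Fin n}
    (hi : i ∉ T) : deg (star k T) {i} = (n - t - 1).choose (k - t - 1) := by
  classical
  unfold deg P8H39.TI.star
  rw [filter_filter]
  have h1 := card_sup n k (insert i T) (by rw [card_insert_of_notMem hi]; omega)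
  rw [card_insert_of_notMem hi, hT] at h1
  rw [show n - t - 1 = n - (t + 1) by omega, show k - t - 1 = k - (t + 1) by omega, ← h1]
  congr 1
  ext A
  simp only [mem_filter, singleton_subset_iff, insert_subset_iff]
  tauto

/-- a sum over the points which is constant in `T` and outside -/
theorem sum_two {n t : ℕ} (T : Finset (Fin n)) (hT : T.card = t) (g : Fin n → ℝ) (a b : ℝ)
    (h1 : ∀ i ∈ T, g i = a) (h2 : ∀ i, i ∉ T → g i = b) :
    ∑ i, g i = t * a + ((n : ℝ) - t) * b := by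
  classical
  rw [← sum_add_sum_compl T, sum_congr rfl h1, sum_congr rfl (fun i hi => h2 i (mem_compl.1 hi)),
    sum_const, sum_const, card_compl, Fintype.card_fin, hT, nsmul_eq_mul, nsmul_eq_mul]
  have : t ≤ n := by
    rw [← hT]
    simpa using card_le_univ T
  rw [Nat.cast_sub this]

theorem choose_id1 {n k : ℕ} (hn : 1 ≤ n) (hk : 1 ≤ k) :
    (k : ℝ) * (n.choose k : ℝ) = n * ((n - 1).choose (k - 1) : ℝ) := by
  obtain ⟨a, rfl⟩ : ∃ a, n = a + 1 := ⟨n - 1, by omega⟩
  obtain ⟨b, rfl⟩ : ∃ b, k = b + 1 := ⟨k - 1, by omega⟩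
  have h := Nat.add_one_mul_choose_eq a b
  have h2 : ((a + 1 : ℕ) : ℝ) * (a.choose b : ℝ) = ((a + 1).choose (b + 1) : ℝ) * ((b + 1 : ℕ) : ℝ) := by
    exact_mod_cast h
  simp only [Nat.add_sub_cancel]
  linarith

theorem choose_id2 {m k : ℕ} (hm : 1 ≤ m) (hk : k ≤ m) :
    ((m : ℝ) - k) * (m.choose k : ℝ) = m * ((m - 1).choose k : ℝ) := by
  obtain ⟨a, rfl⟩ : ∃ a, m = a + 1 := ⟨m - 1, by omega⟩
  have h := Nat.choose_mul_succ_eq a k
  simp only [Nat.add_sub_cancel]
  have h2 : (a.choose k : ℝ) * ((a + 1 : ℕ) : ℝ) =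
      ((a + 1).choose k : ℝ) * (((a + 1 - k : ℕ)) : ℝ) := by
    exact_mod_cast h
  rw [Nat.cast_sub hk] at h2
  linarith

theorem t_RONE (hPS : S_PS) (hO : S_ONE) : S_RONE := by
  intro n k t p F T ht htk hn hF hT hp
  -- sizes
  have hkn : k + 2 ≤ n := by
    obtain ⟨m, rfl⟩ : ∃ m, k = t + m := ⟨k - t, by omega⟩
    have : t + m - t + 1 = m + 1 := by omega
    rw [this] at hn
    have h1 : (t + 1) * (m + 1) = t * m + t + m + 1 := by ring
    have h2 : 1 ≤ t * m := Nat.mul_pos ht (by omega)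
    omega
  obtain ⟨x, z, hx0, hz0, hx1, hz1, hx2, hz2, hs⟩ := hPS n k t F T ht htk hn hF hT
  rw [sum_one, sum_one]
  set D : ℝ := ((star k T).card : ℝ) with hD
  set s : ℝ := (((n - t - 1).choose (k - t - 1) : ℕ) : ℝ) with hsdef
  have hDpos : 0 < D := by
    rw [hD, star_card T hT htk.le]
    exact_mod_cast Nat.choose_pos (by omega)
  have hnt : (0 : ℝ) < (n : ℝ) - t := by
    have : (t : ℝ) < n := by exact_mod_cast (by omega : t < n)
    linarith
  have hnk : (0 : ℝ) < (n : ℝ) - k := by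
    have : (k : ℝ) < n := by exact_mod_cast (by omega : k < n)
    linarith
  have hkt : (0 : ℝ) < (k : ℝ) - t := by
    have : (t : ℝ) < k := by exact_mod_cast htk
    linarith
  have ht1 : (1 : ℝ) ≤ t := by exact_mod_cast ht
  have hn1 : (0 : ℝ) < (n : ℝ) - 1 := by
    have : (2 : ℝ) ≤ n := by exact_mod_cast (by omega : 2 ≤ n)
    linarith
  have hn0 : (0 : ℝ) < (n : ℝ) := by linarith
  have hk0 : (0 : ℝ) < (k : ℝ) := by linarith
  -- `s (n - t) = D (k - t)`
  have hsD : s * ((n : ℝ) - t) = D * ((k : ℝ) - t) := by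
    have h := choose_id1 (n := n - t) (k := k - t) (by omega) (by omega)
    rw [hD, star_card T hT htk.le, hsdef]
    rw [Nat.cast_sub (by omega : t ≤ n), Nat.cast_sub htk.le] at h
    linarith
  have hs0 : 0 ≤ s := Nat.cast_nonneg _
  have hDs : (D - s) * ((n : ℝ) - t) = D * ((n : ℝ) - k) := by linarith
  have hsltD : s < D := by
    have : 0 < (D - s) * ((n : ℝ) - t) := by rw [hDs]; positivity
    have := (pos_iff_pos_of_mul_pos this).2 hnt
    linarith
  -- the sums of the star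
  have hstar : ∀ g : ℝ → ℝ, ∑ i, g (deg (star k T) {i} : ℝ) = t * g D + ((n : ℝ) - t) * g s :=
    fun g => sum_two T hT (fun i => g (deg (star k T) {i} : ℝ)) (g D) (g s)
      (fun i hi => by simp only [star_deg_in T hi, hD])
      (fun i hi => by simp only [star_deg_out T hT htk hi, hsdef])
  rw [hstar (fun x => x ^ p)]
  clear_value D s
  -- `|F| ≤ D`
  have hFD : (F.card : ℝ) ≤ D := by
    rcases Nat.eq_zero_or_pos F.card with h | h
    · rw [h, Nat.cast_zero]; exact hDpos.le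
    · have hFp : (0 : ℝ) < F.card := by exact_mod_cast h
      have h1 := hs 0 (by omega)
      simp only [zero_add, sum_range_one] at h1
      have hC : (0 : ℝ) < (n.choose k : ℝ) := by exact_mod_cast Nat.choose_pos (by omega)
      have h2 : x 0 * D * (n.choose k : ℝ) ≤ F.card * z 0 * (n.choose k : ℝ) :=
        mul_le_mul_of_nonneg_right h1 hC.le
      have h3 : (F.card : ℝ) ^ 2 * D ≤ F.card * D ^ 2 := by
        calc (F.card : ℝ) ^ 2 * D = x 0 * D * (n.choose k : ℝ) := by rw [← hx1]; ring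
          _ ≤ F.card * z 0 * (n.choose k : ℝ) := h2
          _ = F.card * D ^ 2 := by rw [← hz1]; ring
      have h4 : (F.card * D) * (F.card : ℝ) ≤ (F.card * D) * D := by linarith
      exact le_of_mul_le_mul_left h4 (mul_pos hFp hDpos)
  set φ : ℝ := (F.card : ℝ) / D with hφ
  have hFφ : (F.card : ℝ) = φ * D := by rw [hφ, div_mul_cancel₀ _ hDpos.ne']
  have hφ0 : 0 ≤ φ := div_nonneg (Nat.cast_nonneg _) hDpos.le
  have hφ1 : φ ≤ 1 := by rw [hφ, div_le_one hDpos]; exact hFD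
  clear_value φ
  -- the second moment
  have hkD : (k : ℝ) * D = t * D + ((n : ℝ) - t) * s := by linarith
  have hC : (0 : ℝ) < (n.choose k : ℝ) := by exact_mod_cast Nat.choose_pos (by omega)
  set l0 : ℝ := (k : ℝ) * ((n - 1).choose (k - 1) : ℝ) with hl0
  set l1 : ℝ := ((n - 2).choose (k - 1) : ℝ) with hl1
  have hQ : ∀ v : ℕ → ℝ, ∑ j ∈ range (1 + 1),
      ((k - j).choose (1 - j) : ℝ) * ((n - 1 - j).choose (k - 1) : ℝ) * v j = l0 * v 0 + l1 * v 1 := by
    intro v
    rw [sum_range_succ, sum_range_one, hl0, hl1]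
    simp [Nat.sub_sub]
  have hxs := hx2 1 (by omega)
  have hzs := hz2 1 (by omega)
  rw [sum_one, hQ] at hxs hzs
  have hzs2 : (t : ℝ) * D ^ 2 + ((n : ℝ) - t) * s ^ 2 = l0 * z 0 + l1 * z 1 := by
    rw [← hzs, hstar (fun x => x ^ 2)]
  -- `n l0 = k² C`
  have e0 : l0 * n = (k : ℝ) ^ 2 * (n.choose k : ℝ) := by
    have := choose_id1 (n := n) (k := k) (by omega) (by omega)
    rw [hl0]; nlinarith
  have e1 : l1 * (n * ((n : ℝ) - 1)) = k * ((n : ℝ) - k) * (n.choose k : ℝ) := by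
    have h1 := choose_id1 (n := n) (k := k) (by omega) (by omega)
    have h2 := choose_id2 (m := n - 1) (k := k - 1) (by omega) (by omega)
    rw [show n - 1 - 1 = n - 2 by omega, Nat.cast_sub (by omega : 1 ≤ n),
      Nat.cast_sub (by omega : 1 ≤ k), Nat.cast_one] at h2
    rw [hl1]
    have h3 : ((n : ℝ) - 1 - (k - 1)) * ((n - 1).choose (k - 1) : ℝ) * n =
      ((n : ℝ) - 1) * ((n - 2).choose (k - 1) : ℝ) * n := by rw [h2]
    have h4 : ((n : ℝ) - k) * (n * ((n - 1).choose (k - 1) : ℝ)) =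
      ((n : ℝ) - k) * (k * (n.choose k : ℝ)) := by rw [h1]
    linarith
  have hz1' : z 0 * (n.choose k : ℝ) = D ^ 2 := hz1
  have hx1' : x 0 * (n.choose k : ℝ) = φ ^ 2 * D ^ 2 := by rw [hx1, hFφ]; ring
  have hxz : x 0 = φ ^ 2 * z 0 := by
    have : x 0 * (n.choose k : ℝ) = (φ ^ 2 * z 0) * (n.choose k : ℝ) := by
      rw [hx1', ← hz1']; ring
    exact mul_right_cancel₀ hC.ne' this
  have f0 : l0 * z 0 * n = (k : ℝ) ^ 2 * D ^ 2 := by
    rw [← hz1']; linear_combination z 0 * e0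
  have f1 : l1 * z 0 * (n * ((n : ℝ) - 1)) = k * ((n : ℝ) - k) * D ^ 2 := by
    rw [← hz1']; linear_combination z 0 * e1
  have hl1nn : 0 ≤ l1 := Nat.cast_nonneg _
  have hl01 : l1 ≤ l0 := by
    have h1 : (n - 2).choose (k - 1) ≤ (n - 1).choose (k - 1) :=
      Nat.choose_le_choose _ (by omega)
    have h2 : (((n - 2).choose (k - 1) : ℕ) : ℝ) ≤ ((n - 1).choose (k - 1) : ℕ) := by
      exact_mod_cast h1
    have h3 : (1 : ℝ) ≤ k := by exact_mod_cast (by omega : 1 ≤ k)
    have h4 : (0 : ℝ) ≤ ((n - 1).choose (k - 1) : ℕ) := Nat.cast_nonneg _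
    rw [hl0, hl1]
    nlinarith
  clear_value l0 l1
  -- `l1 (z0 + z1) ≤ 2 t D (D - s)`
  have hmain : l1 * (z 0 + z 1) ≤ 2 * t * D * (D - s) := by
    have g0 : l0 * z 0 = (k : ℝ) ^ 2 * D ^ 2 / n := by rw [eq_div_iff hn0.ne']; exact f0
    have g1 : l1 * z 0 = k * ((n : ℝ) - k) * D ^ 2 / (n * ((n : ℝ) - 1)) := by
      rw [eq_div_iff (by positivity)]; exact f1
    have gs : s = D * ((k : ℝ) - t) / ((n : ℝ) - t) := by rw [eq_div_iff hnt.ne']; exact hsD
    have g2 : l1 * (z 0 + z 1) = t * D ^ 2 + ((n : ℝ) - t) * s ^ 2 - (k : ℝ) ^ 2 * D ^ 2 / n +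
        k * ((n : ℝ) - k) * D ^ 2 / (n * ((n : ℝ) - 1)) := by
      rw [← g0, ← g1]; linarith
    have g3 : (t : ℝ) * D ^ 2 + ((n : ℝ) - t) * s ^ 2 - (k : ℝ) ^ 2 * D ^ 2 / n =
        t * ((n : ℝ) - k) ^ 2 * D ^ 2 / (n * ((n : ℝ) - t)) := by
      rw [gs]; field_simp; ring
    have g4 : 2 * t * D * (D - s) = 2 * t * D ^ 2 * ((n : ℝ) - k) / ((n : ℝ) - t) := by
      rw [eq_div_iff hnt.ne']; linear_combination 2 * (t : ℝ) * D * hDs
    rw [g2, g3, g4]
    have g5 : 2 * t * D ^ 2 * ((n : ℝ) - k) / ((n : ℝ) - t) -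
        (t * ((n : ℝ) - k) ^ 2 * D ^ 2 / (n * ((n : ℝ) - t)) +
          k * ((n : ℝ) - k) * D ^ 2 / (n * ((n : ℝ) - 1))) =
        D ^ 2 * ((n : ℝ) - k) * (t * ((n : ℝ) + k) * ((n : ℝ) - 1) - k * ((n : ℝ) - t)) /
          (n * ((n : ℝ) - t) * ((n : ℝ) - 1)) := by
      field_simp; ring
    have g6 : 0 ≤ t * ((n : ℝ) + k) * ((n : ℝ) - 1) - k * ((n : ℝ) - t) := by
      have q1 : (k : ℝ) * ((n : ℝ) - t) ≤ k * ((n : ℝ) - 1) :=
        mul_le_mul_of_nonneg_left (by linarith) hk0.le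
      have q2 : (k : ℝ) * ((n : ℝ) - 1) ≤ t * ((n : ℝ) + k) * ((n : ℝ) - 1) := by
        apply mul_le_mul_of_nonneg_right _ hn1.le
        nlinarith
      linarith
    have g7 : 0 ≤ D ^ 2 * ((n : ℝ) - k) * (t * ((n : ℝ) + k) * ((n : ℝ) - 1) - k * ((n : ℝ) - t)) /
          (n * ((n : ℝ) - t) * ((n : ℝ) - 1)) := by positivity
    linarith
  -- apply ONE
  refine hO n t (fun i => (deg F {i} : ℝ)) p D s φ hp (by omega) hs0 hsltD hφ0 hφ1
    (fun i => Nat.cast_nonneg _) (fun i => ?_) ?_ ?_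
  · refine le_trans ?_ hFD
    exact_mod_cast card_filter_le _ _
  · rw [sum_deg F hF.1, hFφ]
    linear_combination φ * hkD
  · rw [hxs]
    have h1 := hs 1 (by omega)
    rw [sum_range_succ, sum_range_one, sum_range_succ, sum_range_one] at h1
    have h2 : x 0 + x 1 ≤ φ * (z 0 + z 1) := by
      have : (x 0 + x 1) * D ≤ (φ * (z 0 + z 1)) * D := by
        rw [hFφ] at h1; linarith
      exact le_of_mul_le_mul_right this hDpos
    have h3 : l0 * x 0 + l1 * x 1 ≤ φ ^ 2 * (l0 * z 0 + l1 * z 1) +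
        φ * (1 - φ) * (l1 * (z 0 + z 1)) := by
      have q1 : l1 * (x 0 + x 1) ≤ l1 * (φ * (z 0 + z 1)) := mul_le_mul_of_nonneg_left h2 hl1nn
      have q2 : l0 * x 0 + l1 * x 1 = (l0 - l1) * (φ ^ 2 * z 0) + l1 * (x 0 + x 1) := by
        rw [← hxz]; ring
      rw [q2]
      linarith
    have h4 : φ * (1 - φ) * (l1 * (z 0 + z 1)) ≤ φ * (1 - φ) * (2 * t * D * (D - s)) :=
      mul_le_mul_of_nonneg_left hmain (mul_nonneg hφ0 (by linarith))
    rw [← hzs2] at h3
    have h5 : 0 ≤ t * D ^ 2 * (1 - φ) ^ 2 := by positivity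
    nlinarith

end Pool.Agent.P8H78.TI
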